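import Pool.Agent.Q283.FT.Stm2

set_option autoImplicit false

/-!
# Job ISO (project FT of helper283)
-/

namespace Pool.Agent.Q214.FT

open Finset Module Pool.Agent.Q283.FT Pool.Agent.Q7.LK
open scoped Classical

theorem dot_single {f : ℕ} (t : Fin f) (z : Fin f → ZMod 2) : dot (Pi.single t 1) z = z t := by
  unfold dot
  rw [Finset.sum_eq_single t]
  · simp
  · intro b _ hb
    simp [Pi.single_eq_of_ne hb]
  · simp

theorem opT_single {f : ℕ} (c : Fin 3 → Fin f → ZMod 2) (w : Fin f → ZMod 2) (t : Fin f) (x : U2) :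
    opT c w (Pi.single t 1) x = (c 2 t * (x.1 + x.2) + c 1 t * x.2 + w t * x.1,
      c 2 t * (x.1 + x.2) + c 0 t * x.1 + w t * x.2) := by
  unfold opT
  rw [LinearMap.mk₂_apply]
  simp only [dot_single]

theorem six : ∀ p1 p2 q1 q2 : ZMod 2, (p1, p2) ≠ (0, 0) → (q1, q2) ≠ (0, 0) → (p1, p2) ≠ (q1, q2) →
    (p1 = 1 ∧ p2 = 0 ∧ q1 = 0 ∧ q2 = 1) ∨ (p1 = 0 ∧ p2 = 1 ∧ q1 = 1 ∧ q2 = 0) ∨
    (p1 = 1 ∧ p2 = 1 ∧ q1 = 0 ∧ q2 = 1) ∨ (p1 = 1 ∧ p2 = 0 ∧ q1 = 1 ∧ q2 = 1) ∨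
    (p1 = 1 ∧ p2 = 1 ∧ q1 = 1 ∧ q2 = 0) ∨ (p1 = 0 ∧ p2 = 1 ∧ q1 = 1 ∧ q2 = 1) := by
  decide

/-- the equations at one place, for the matrix with the columns `p`, `q` -/
def Eqs (p1 p2 q1 q2 a b c a' b' c' w : ZMod 2) : Prop :=
  (a + w) * p1 + (a + c) * q1 = a' * (p1 + p2) + b' * p2 + w * p1 ∧
  (a + w) * p2 + (a + c) * q2 = a' * (p1 + p2) + c' * p1 + w * p2 ∧
  (a + b) * p1 + (a + w) * q1 = a' * (q1 + q2) + b' * q2 + w * q1 ∧
  (a + b) * p2 + (a + w) * q2 = a' * (q1 + q2) + c' * q1 + w * q2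

instance (p1 p2 q1 q2 a b c a' b' c' w : ZMod 2) : Decidable (Eqs p1 p2 q1 q2 a b c a' b' c' w) := by
  unfold Eqs
  infer_instance

theorem e1 : ∀ a b c a' b' c' w : ZMod 2, Eqs 1 0 0 1 a b c a' b' c' w → c = c' ∧ b = b' ∧ a = a' := by
  decide

theorem e2 : ∀ a b c a' b' c' w : ZMod 2, Eqs 0 1 1 0 a b c a' b' c' w → c = b' ∧ b = c' ∧ a = a' := by
  decide

theorem e3 : ∀ a b c a' b' c' w : ZMod 2, Eqs 1 1 0 1 a b c a' b' c' w → c = c' ∧ b = a' ∧ a = b' := by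
  decide

theorem e4 : ∀ a b c a' b' c' w : ZMod 2, Eqs 1 0 1 1 a b c a' b' c' w → c = a' ∧ b = b' ∧ a = c' := by
  decide

theorem e5 : ∀ a b c a' b' c' w : ZMod 2, Eqs 1 1 1 0 a b c a' b' c' w → c = b' ∧ b = a' ∧ a = c' := by
  decide

theorem e6 : ∀ a b c a' b' c' w : ZMod 2, Eqs 0 1 1 1 a b c a' b' c' w → c = a' ∧ b = c' ∧ a = b' := by
  decide

theorem fin {f : ℕ} {c c' : Fin 3 → Fin f → ZMod 2} (s : Fin 3 → Fin 3) (hs : Function.Injective s)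
    (h : ∀ t, c 0 t = c' (s 0) t ∧ c 1 t = c' (s 1) t ∧ c 2 t = c' (s 2) t) :
    ∃ σ : Equiv.Perm (Fin 3), ∀ l, c l = c' (σ l) := by
  refine ⟨Equiv.ofBijective s (Finite.injective_iff_bijective.1 hs), fun l => funext fun t => ?_⟩
  obtain ⟨h0, h1, h2⟩ := h t
  fin_cases l
  · exact h0
  · exact h1
  · exact h2

/-- Job ISO. -/
theorem iso : S_ISO := by
  rintro f c c' w ⟨g, hg⟩
  have lin : ∀ x : U2, g x = (x.1 * (g (1, 0)).1 + x.2 * (g (0, 1)).1,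
      x.1 * (g (1, 0)).2 + x.2 * (g (0, 1)).2) := by
    intro x
    have h1 : x = x.1 • ((1, 0) : U2) + x.2 • ((0, 1) : U2) := by
      ext <;> simp
    conv_lhs => rw [h1, map_add, map_smul, map_smul]
    ext <;> simp
  have hp : ((g (1, 0)).1, (g (1, 0)).2) ≠ ((0, 0) : U2) := by
    intro h
    have h1 : g (1, 0) = 0 := h
    rw [LinearEquiv.map_eq_zero_iff] at h1
    exact absurd h1 (by decide)
  have hq : ((g (0, 1)).1, (g (0, 1)).2) ≠ ((0, 0) : U2) := by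
    intro h
    have h1 : g (0, 1) = 0 := h
    rw [LinearEquiv.map_eq_zero_iff] at h1
    exact absurd h1 (by decide)
  have hpq : ((g (1, 0)).1, (g (1, 0)).2) ≠ ((g (0, 1)).1, (g (0, 1)).2) := by
    intro h
    have h1 : g (1, 0) = g (0, 1) := h
    exact absurd (g.injective h1) (by decide)
  have key : ∀ t, Eqs (g (1, 0)).1 (g (1, 0)).2 (g (0, 1)).1 (g (0, 1)).2 (c 2 t) (c 1 t) (c 0 t)
      (c' 2 t) (c' 1 t) (c' 0 t) (w t) := by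
    intro t
    have h1 := hg (Pi.single t 1) (1, 0)
    have h2 := hg (Pi.single t 1) (0, 1)
    rw [opT_single, opT_single] at h1 h2
    rw [lin, Prod.ext_iff] at h1 h2
    simp only [add_zero, zero_add, mul_one, mul_zero] at h1 h2
    exact ⟨h1.1, h1.2, h2.1, h2.2⟩
  rcases six _ _ _ _ hp hq hpq with ⟨h1, h2, h3, h4⟩ | ⟨h1, h2, h3, h4⟩ | ⟨h1, h2, h3, h4⟩ |
    ⟨h1, h2, h3, h4⟩ | ⟨h1, h2, h3, h4⟩ | ⟨h1, h2, h3, h4⟩ <;> rw [h1, h2, h3, h4] at key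
  · exact fin ![0, 1, 2] (by decide) fun t => e1 _ _ _ _ _ _ _ (key t)
  · exact fin ![1, 0, 2] (by decide) fun t => e2 _ _ _ _ _ _ _ (key t)
  · exact fin ![0, 2, 1] (by decide) fun t => e3 _ _ _ _ _ _ _ (key t)
  · exact fin ![2, 1, 0] (by decide) fun t => e4 _ _ _ _ _ _ _ (key t)
  · exact fin ![1, 2, 0] (by decide) fun t => e5 _ _ _ _ _ _ _ (key t)
  · exact fin ![2, 0, 1] (by decide) fun t => e6 _ _ _ _ _ _ _ (key t)

end Pool.Agent.Q214.FT
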