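import Pool.Agent.Q283.FT.Stm2

set_option autoImplicit false

/-!
# Job LBS (project FT of helper283)
-/

namespace Pool.Agent.Q214.FT

open Finset Module Pool.Agent.Q283.FT Pool.Agent.Q7.LK
open scoped Classical

section gen

variable {V : Type} [Fintype V] [AddCommGroup V] {k : ℕ}

theorem shift_le (i0 : Fin k) (P : (Fin k → V) → Prop) (hP : ∀ φ v, P φ → P (φ + Pi.single i0 v))
    (ψ ψ' : V) : (univ.filter fun φ : Fin k → V => ∑ j, φ j = ψ ∧ P φ).card ≤
      (univ.filter fun φ : Fin k → V => ∑ j, φ j = ψ' ∧ P φ).card := by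
  refine card_le_card_of_injOn (fun φ => φ + Pi.single i0 (ψ' - ψ)) ?_ ?_
  · intro φ hφ
    rw [mem_coe, mem_filter] at hφ ⊢
    refine ⟨mem_univ _, ?_, hP _ _ hφ.2.2⟩
    have h1 : ∑ j, (φ + Pi.single i0 (ψ' - ψ) : Fin k → V) j = ∑ j, φ j + (ψ' - ψ) := by
      simp only [Pi.add_apply, sum_add_distrib]
      congr 1
      rw [Finset.sum_eq_single i0]
      · simp
      · intro b _ hb
        simp [Pi.single_eq_of_ne hb]
      · simp
    rw [h1, hφ.2.1]
    abel
  · intro a _ b _ h
    exact add_right_cancel h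

theorem tot (i0 : Fin k) (P : (Fin k → V) → Prop) (hP : ∀ φ v, P φ → P (φ + Pi.single i0 v))
    (ψ : V) : (univ.filter P).card =
      Fintype.card V * (univ.filter fun φ : Fin k → V => ∑ j, φ j = ψ ∧ P φ).card := by
  rw [card_eq_sum_card_fiberwise (f := fun φ : Fin k → V => ∑ j, φ j) (t := univ)
    (fun _ _ => mem_coe.2 (mem_univ _))]
  have h1 : ∀ ψ' ∈ (univ : Finset V), ((univ.filter P).filter fun φ : Fin k → V => ∑ j, φ j = ψ').card =
      (univ.filter fun φ : Fin k → V => ∑ j, φ j = ψ ∧ P φ).card := by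
    intro ψ' _
    rw [filter_filter]
    have h2 : (univ.filter fun φ : Fin k → V => P φ ∧ ∑ j, φ j = ψ') =
        univ.filter fun φ : Fin k → V => ∑ j, φ j = ψ' ∧ P φ :=
      filter_congr fun φ _ => and_comm
    rw [h2]
    exact le_antisymm (shift_le i0 P hP ψ' ψ) (shift_le i0 P hP ψ ψ')
  rw [sum_congr rfl h1, sum_const, smul_eq_mul, card_univ]

omit [AddCommGroup V] in
theorem card_avoid (B : Finset (Fin k)) (χ : V) :
    (univ.filter fun φ : Fin k → V => ∀ i ∈ B, φ i ≠ χ).card =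
      (Fintype.card V - 1) ^ B.card * Fintype.card V ^ (k - B.card) := by
  have h1 : (univ.filter fun φ : Fin k → V => ∀ i ∈ B, φ i ≠ χ) =
      Fintype.piFinset fun i => if i ∈ B then univ.erase χ else univ := by
    ext φ
    rw [mem_filter, Fintype.mem_piFinset]
    constructor
    · rintro ⟨_, h⟩ i
      by_cases hi : i ∈ B
      · rw [if_pos hi, mem_erase]
        exact ⟨h i hi, mem_univ _⟩
      · rw [if_neg hi]
        exact mem_univ _
    · intro h
      refine ⟨mem_univ _, fun i hi => ?_⟩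
      have := h i
      rw [if_pos hi, mem_erase] at this
      exact this.1
  rw [h1, Fintype.card_piFinset]
  have h2 : ∀ i : Fin k, (if i ∈ B then univ.erase χ else (univ : Finset V)).card =
      if i ∈ B then Fintype.card V - 1 else Fintype.card V := by
    intro i
    by_cases hi : i ∈ B
    · rw [if_pos hi, if_pos hi, card_erase_of_mem (mem_univ _), card_univ]
    · rw [if_neg hi, if_neg hi, card_univ]
  simp_rw [h2]
  rw [prod_ite, prod_const, prod_const]
  congr 2
  · congr 1
    ext i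
    simp
  · have h3 : (univ.filter fun i : Fin k => i ∉ B) = univ \ B := by
      ext i
      simp
    rw [h3, card_sdiff_of_subset (subset_univ _), card_univ, Fintype.card_fin]

theorem avoid_ratio (i0 : Fin k) (B : Finset (Fin k)) (hB : i0 ∉ B) (χ ψ : V) :
    ((univ.filter fun φ : Fin k → V => ∑ j, φ j = ψ ∧ ∀ i ∈ B, φ i ≠ χ).card : ℝ) =
      (1 - 1 / (Fintype.card V : ℝ)) ^ B.card *
        ((univ.filter fun φ : Fin k → V => ∑ j, φ j = ψ).card : ℝ) := by
  have hN : 0 < Fintype.card V := Fintype.card_pos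
  have hN' : (0 : ℝ) < Fintype.card V := by exact_mod_cast hN
  have h1 : (Fintype.card V - 1) ^ B.card * Fintype.card V ^ (k - B.card) = Fintype.card V *
      (univ.filter fun φ : Fin k → V => ∑ j, φ j = ψ ∧ ∀ i ∈ B, φ i ≠ χ).card := by
    rw [← card_avoid B χ]
    convert tot i0 (fun φ : Fin k → V => ∀ i ∈ B, φ i ≠ χ) (by
      intro φ v h i hi
      have : i ≠ i0 := by
        rintro rfl
        exact hB hi
      rw [Pi.add_apply, Pi.single_eq_of_ne this, add_zero]
      exact h i hi) ψ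
  have h2 : Fintype.card V ^ k = Fintype.card V *
      (univ.filter fun φ : Fin k → V => ∑ j, φ j = ψ).card := by
    have h3 := tot i0 (fun _ : Fin k → V => True) (fun _ _ _ => trivial) ψ
    simpa using h3
  have hc : B.card ≤ k := by simpa using card_le_univ B
  have h5 : ((Fintype.card V : ℝ) - 1) ^ B.card * (Fintype.card V : ℝ) ^ (k - B.card) =
      Fintype.card V *
        ((univ.filter fun φ : Fin k → V => ∑ j, φ j = ψ ∧ ∀ i ∈ B, φ i ≠ χ).card : ℝ) := by
    have : ((Fintype.card V - 1 : ℕ) : ℝ) = (Fintype.card V : ℝ) - 1 := by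
      rw [Nat.cast_sub hN, Nat.cast_one]
    rw [← this]
    exact_mod_cast h1
  have h6 : (Fintype.card V : ℝ) ^ k =
      Fintype.card V * ((univ.filter fun φ : Fin k → V => ∑ j, φ j = ψ).card : ℝ) := by
    exact_mod_cast h2
  have h7 : (Fintype.card V : ℝ) ^ k = (Fintype.card V : ℝ) ^ B.card * (Fintype.card V : ℝ) ^ (k - B.card) := by
    rw [← pow_add]
    congr 1
    omega
  apply mul_left_cancel₀ hN'.ne'
  rw [← h5, mul_left_comm, ← h6, h7]
  have h8 : (1 - 1 / (Fintype.card V : ℝ)) = ((Fintype.card V : ℝ) - 1) / Fintype.card V := by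
    field_simp
  rw [h8, div_pow]
  field_simp

/-- the block `1 + j L, …, j L + L` -/
def blk (k L j : ℕ) : Finset (Fin k) := univ.filter fun i => 1 + j * L ≤ i.1 ∧ i.1 < 1 + j * L + L

theorem card_blk {k L j : ℕ} (h : 1 + j * L + L ≤ k) : (blk k L j).card = L := by
  have h1 : (blk k L j).map Fin.valEmbedding = Ico (1 + j * L) (1 + j * L + L) := by
    ext x
    simp only [blk, Finset.mem_map, mem_filter, mem_univ, true_and, Fin.valEmbedding_apply, mem_Ico]
    constructor
    · rintro ⟨i, hi, rfl⟩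
      exact hi
    · intro hx
      exact ⟨⟨x, by omega⟩, hx, rfl⟩
  rw [← card_map Fin.valEmbedding, h1, Nat.card_Ico]
  omega

omit [Fintype V] [AddCommGroup V] in
theorem exists_blk {R L : ℕ} (χ : V) (φ : Fin k → V) (h : (univ.filter fun i => φ i = χ).card < R) :
    ∃ j ∈ range R, ∀ i ∈ blk k L j, φ i ≠ χ := by
  by_contra hc
  push Not at hc
  obtain ⟨i₁, _⟩ := hc 0 (mem_range.2 (by omega))
  have _ : Nonempty (Fin k) := ⟨i₁⟩
  choose! g hg1 hg2 using hc
  have h1 : (range R).card ≤ (univ.filter fun i => φ i = χ).card := by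
    refine card_le_card_of_injOn g ?_ ?_
    · intro j hj
      rw [mem_coe, mem_filter]
      exact ⟨mem_univ _, hg2 j hj⟩
    · intro a ha b hb hab
      have h2 := hg1 a ha
      have h3 := hg1 b hb
      rw [hab] at h2
      simp only [blk, mem_filter, mem_univ, true_and] at h2 h3
      by_contra hne
      rcases Nat.lt_or_gt_of_ne hne with h4 | h4
      · have : (a + 1) * L ≤ b * L := Nat.mul_le_mul_right _ h4
        rw [add_mul, one_mul] at this
        omega
      · have : (b + 1) * L ≤ a * L := Nat.mul_le_mul_right _ h4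
        rw [add_mul, one_mul] at this
        omega
  rw [card_range] at h1
  omega

theorem bad_le {R L : ℕ} (hk : 1 + R * L ≤ k) (ψ : V) :
    ((univ.filter fun φ : Fin k → V => ∑ j, φ j = ψ ∧
      ∃ χ, (univ.filter fun i => φ i = χ).card < R).card : ℝ) ≤
      Fintype.card V * R * (1 - 1 / (Fintype.card V : ℝ)) ^ L *
        ((univ.filter fun φ : Fin k → V => ∑ j, φ j = ψ).card : ℝ) := by
  have hsub : (univ.filter fun φ : Fin k → V => ∑ j, φ j = ψ ∧
      ∃ χ, (univ.filter fun i => φ i = χ).card < R) ⊆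
      ((univ : Finset V) ×ˢ range R).biUnion fun t =>
        univ.filter fun φ : Fin k → V => ∑ j, φ j = ψ ∧ ∀ i ∈ blk k L t.2, φ i ≠ t.1 := by
    intro φ hφ
    rw [mem_filter] at hφ
    obtain ⟨_, h1, χ, h2⟩ := hφ
    obtain ⟨j, hj, h3⟩ := exists_blk (L := L) χ φ h2
    rw [mem_biUnion]
    refine ⟨(χ, j), mem_product.2 ⟨mem_univ _, hj⟩, ?_⟩
    rw [mem_filter]
    exact ⟨mem_univ _, h1, h3⟩
  have h1 := (card_le_card hsub).trans card_biUnion_le
  have h2 : ((univ.filter fun φ : Fin k → V => ∑ j, φ j = ψ ∧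
      ∃ χ, (univ.filter fun i => φ i = χ).card < R).card : ℝ) ≤
      ∑ t ∈ (univ : Finset V) ×ˢ range R, ((univ.filter fun φ : Fin k → V => ∑ j, φ j = ψ ∧
        ∀ i ∈ blk k L t.2, φ i ≠ t.1).card : ℝ) := by
    exact_mod_cast h1
  refine h2.trans (le_of_eq ?_)
  have h3 : ∀ t ∈ (univ : Finset V) ×ˢ range R, ((univ.filter fun φ : Fin k → V => ∑ j, φ j = ψ ∧
        ∀ i ∈ blk k L t.2, φ i ≠ t.1).card : ℝ) = (1 - 1 / (Fintype.card V : ℝ)) ^ L *
        ((univ.filter fun φ : Fin k → V => ∑ j, φ j = ψ).card : ℝ) := by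
    intro t ht
    rw [mem_product, mem_range] at ht
    have h4 : (t.2 + 1) * L ≤ R * L := Nat.mul_le_mul_right _ ht.2
    rw [add_mul, one_mul] at h4
    have h5 : 0 < k := by omega
    have h6 := avoid_ratio (⟨0, h5⟩ : Fin k) (blk k L t.2) (by simp [blk]) t.1 ψ
    rw [card_blk (by omega)] at h6
    exact h6
  rw [sum_congr rfl h3, sum_const, card_product, card_univ, card_range, nsmul_eq_mul]
  push_cast
  ring

end gen

/-- Job LBS. -/
theorem lbs : S_LBS := by
  intro f R ε hε
  obtain ⟨N, hN⟩ : ∃ N, N = Fintype.card (Fin f → ZMod 2) := ⟨_, rfl⟩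
  have hN0 : (0 : ℝ) < N := by
    rw [hN]
    exact_mod_cast Fintype.card_pos
  have hN1 : (1 : ℝ) ≤ N := by
    have : 0 < N := by exact_mod_cast hN0
    exact_mod_cast this
  have h1 : (1 - 1 / (N : ℝ)) < 1 := by
    have : 0 < 1 / (N : ℝ) := by positivity
    linarith
  have h0 : 0 ≤ (1 - 1 / (N : ℝ)) := by
    rw [sub_nonneg, div_le_one hN0]
    exact hN1
  obtain ⟨L, hL⟩ := exists_pow_lt_of_lt_one (div_pos hε (by positivity : (0 : ℝ) < N * R + 1)) h1
  refine ⟨1 + R * L, fun k hk ψ => ?_⟩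
  simp only [one_smul]
  have h3 := bad_le hk ψ
  refine le_trans ?_ (h3.trans ?_)
  · refine le_of_eq ?_
    congr!
  rw [← hN]
  have h4 : (N : ℝ) * R * (1 - 1 / (N : ℝ)) ^ L ≤ ε := by
    rw [lt_div_iff₀ (by positivity)] at hL
    have h2 : 0 ≤ (1 - 1 / (N : ℝ)) ^ L := pow_nonneg h0 _
    nlinarith
  refine (mul_le_mul_of_nonneg_right h4 (Nat.cast_nonneg _)).trans (le_of_eq ?_)
  congr!

end Pool.Agent.Q214.FT
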